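import Mathlib

/-!
# Early vertices among the most central vertices of a uniform attachment tree

We prove that `R_{K,n}(c) → c (1 - exp (-1/c))` in probability (first `n → ∞`, then `K → ∞`).

Outline.  Let `D v` be the size of the subtree of descendants of `v` (including `v`).
* `psi v ≥ n + 1 - D v`, with equality when `2 D v ≤ n + 1` (`psi_ge`, `psi_le`).  Hence, up to the
  few vertices with `2 D v > n + 1` (in expectation fewer than two), the most central vertices are
  the ones with the largest subtrees (`upper_incl`, `lower_incl`).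
* `g n i a = P(D i > a)` satisfies `g n i a * C(n,i) = C(n-a,i)`, `∑_i g n i a = (n+1)/(a+1)`
  (`g_formula`, `sum_g`), and the events `{D i > a}` are negatively correlated apart from the
  ancestor pairs (`pair_le`), which gives a variance bound (`variance_le`).
* With `a ≈ (κ/K) n`, about `K/κ` vertices have `D > a`, of which about
  `K (1 - exp (-κ))/κ` are among the first `K` (`all_vertices`, `first_vertices`); take `κ` close
  to `1/c` from both sides.
-/

set_option autoImplicit false
namespace Pool.Agent.Results.MP_6a6beb_pr.EarlyCentral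
open Finset

/-- `u` lies in the subtree of `v` for the parent function `f`. -/
def Sub (f : ℕ → ℕ) (v u : ℕ) : Prop := ∃ k, f^[k] u = v

/-- `f` is a parent function -/
structure IsPar (f : ℕ → ℕ) : Prop where
  zero : f 0 = 0
  lt : ∀ u, 0 < u → f u < u

lemma IsPar.le {f : ℕ → ℕ} (hf : IsPar f) (u : ℕ) : f u ≤ u := by
  rcases Nat.eq_zero_or_pos u with h | h
  · rw [h, hf.zero]
  · exact (hf.lt u h).le

lemma sub_refl (f : ℕ → ℕ) (v : ℕ) : Sub f v v := ⟨0, rfl⟩

lemma sub_iff (f : ℕ → ℕ) {v u : ℕ} (h : u ≠ v) : Sub f v u ↔ Sub f v (f u) := by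
  constructor
  · rintro ⟨k, hk⟩
    rcases k with _ | k
    · exact absurd hk h
    · exact ⟨k, by rwa [Function.iterate_succ_apply] at hk⟩
  · rintro ⟨k, hk⟩
    exact ⟨k + 1, by rw [Function.iterate_succ_apply]; exact hk⟩

lemma sub_le {f : ℕ → ℕ} (hf : IsPar f) : ∀ {u v : ℕ}, Sub f v u → v ≤ u := by
  intro u v ⟨k, hk⟩
  induction k generalizing u with
  | zero => simp at hk; omega
  | succ k ih =>
    rw [Function.iterate_succ_apply] at hk
    exact (ih hk).trans (hf.le u)

lemma sub_congr {f g : ℕ → ℕ} (hf : IsPar f) {n : ℕ} (h : ∀ u ≤ n, f u = g u) (v : ℕ) :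
    ∀ u ≤ n, (Sub f v u ↔ Sub g v u) := by
  intro u
  induction u using Nat.strong_induction_on with
  | _ u ih =>
    intro hu
    by_cases huv : u = v
    · subst huv; exact ⟨fun _ => sub_refl _ _, fun _ => sub_refl _ _⟩
    · rw [sub_iff f huv, sub_iff g huv, ← h u hu]
      rcases Nat.eq_zero_or_pos u with h0 | h0
      · subst h0
        have hg0 : g 0 = 0 := by rw [← h 0 hu, hf.zero]
        rw [hf.zero]
        have h1 : ¬ Sub f v 0 := fun hs => huv (Nat.le_zero.1 (sub_le hf hs)).symm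
        have h2 : ¬ Sub g v 0 := by
          rintro ⟨k, hk⟩
          have : ∀ k, g^[k] 0 = 0 := by
            intro k; induction k with
            | zero => rfl
            | succ k ih => rw [Function.iterate_succ_apply, hg0, ih]
          rw [this] at hk; exact huv hk
        exact ⟨fun h => absurd h h1, fun h => absurd h h2⟩
      · exact ih (f u) (hf.lt u h0) ((hf.le u).trans hu)

/-- ancestors form a chain -/
lemma sub_chain {f : ℕ → ℕ} (hf : IsPar f) {i j : ℕ} (hij : i < j) :
    ∀ u, Sub f i u → Sub f j u → Sub f i j := by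
  intro u
  induction u using Nat.strong_induction_on with
  | _ u ih =>
    intro h1 h2
    by_cases huj : u = j
    · subst huj; exact h1
    · have hju := sub_le hf h2
      have hui : u ≠ i := by omega
      have h0 : 0 < u := by omega
      exact ih (f u) (hf.lt u h0) ((sub_iff f hui).1 h1) ((sub_iff f huj).1 h2)

open Classical in
/-- size of the subtree of `v` among the vertices `0, …, n` -/
noncomputable def Ds (n : ℕ) (f : ℕ → ℕ) (v : ℕ) : ℕ := ((range (n + 1)).filter (fun u => Sub f v u)).card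

open Classical in
lemma Ds_succ {f g : ℕ → ℕ} (hf : IsPar f) {n : ℕ} (h : ∀ u ≤ n, f u = g u) {v : ℕ} :
    Ds (n + 1) g v = Ds n f v + (if Sub g v (n + 1) then 1 else 0) := by
  unfold Ds
  rw [range_add_one, filter_insert]
  have h1 : (range (n + 1)).filter (fun u => Sub g v u) =
      (range (n + 1)).filter (fun u => Sub f v u) := by
    apply filter_congr
    intro u hu
    exact (sub_congr hf h v u (by simpa [Nat.lt_succ_iff] using hu)).symm
  rw [h1]
  split_ifs with h2
  · rw [card_insert_of_notMem (by simp)]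
  · simp

/-- The outcomes of the uniform attachment process: vertex `i + 1` (for `i < n`) chooses
`ω i ∈ {0,…,i}`.  The uniform distribution on `Tree n` is the law of independent uniform choices. -/
abbrev Tree (n : ℕ) : Type := (i : Fin n) → Fin ((i : ℕ) + 1)

/-- the parent function of `ω` (zero outside `1,…,n`) -/
def par {n : ℕ} (ω : Tree n) (u : ℕ) : ℕ :=
  if h : 0 < u ∧ u ≤ n then (ω ⟨u - 1, by omega⟩ : ℕ) else 0

lemma par_isPar {n : ℕ} (ω : Tree n) : IsPar (par ω) := by
  constructor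
  · simp [par]
  · intro u hu
    unfold par
    split_ifs with h
    · have := (ω ⟨u - 1, by omega⟩).isLt
      simp only at this
      omega
    · exact hu

def ext {n : ℕ} (ω : Tree n) (p : Fin (n + 1)) : Tree (n + 1) :=
  Fin.snoc (α := fun i : Fin (n + 1) => Fin ((i : ℕ) + 1)) ω p

lemma par_ext_le {n : ℕ} (ω : Tree n) (p : Fin (n + 1)) {u : ℕ} (hu : u ≤ n) :
    par (ext ω p) u = par ω u := by
  unfold par
  by_cases h0 : 0 < u
  · rw [dif_pos ⟨h0, by omega⟩, dif_pos ⟨h0, hu⟩]
    have : (⟨u - 1, by omega⟩ : Fin (n + 1)) = Fin.castSucc ⟨u - 1, by omega⟩ := rfl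
    rw [this]
    unfold ext
    rw [Fin.snoc_castSucc]
  · rw [dif_neg (by tauto), dif_neg (by tauto)]

lemma par_ext_last {n : ℕ} (ω : Tree n) (p : Fin (n + 1)) :
    par (ext ω p) (n + 1) = p := by
  unfold par
  rw [dif_pos ⟨by omega, le_rfl⟩]
  have : (⟨n + 1 - 1, by omega⟩ : Fin (n + 1)) = Fin.last n := rfl
  rw [this]
  unfold ext
  rw [Fin.snoc_last]

lemma sum_tree_succ {n : ℕ} (F : Tree (n + 1) → ℝ) :
    ∑ ω : Tree (n + 1), F ω = ∑ ω : Tree n, ∑ p : Fin (n + 1), F (ext ω p) := by
  rw [← Equiv.sum_comp (Fin.snocEquiv (fun i : Fin (n + 1) => Fin ((i : ℕ) + 1))) F,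
    Fintype.sum_prod_type_right]
  rfl

/-- expectation over a uniform `ω : Tree n` -/
noncomputable def Ex (n : ℕ) (F : Tree n → ℝ) : ℝ := (∑ ω : Tree n, F ω) / Fintype.card (Tree n)

lemma card_tree_succ (n : ℕ) : (Fintype.card (Tree (n + 1)) : ℝ) = Fintype.card (Tree n) * (n + 1) := by
  have h := sum_tree_succ (n := n) (fun _ => 1)
  rw [Finset.sum_const, Finset.card_univ, nsmul_one] at h
  rw [h, Finset.sum_const, Finset.sum_const, Finset.card_univ, Finset.card_univ, Fintype.card_fin]
  simp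
  ring

lemma card_tree_pos (n : ℕ) : (0 : ℝ) < Fintype.card (Tree n) := by
  have : 0 < Fintype.card (Tree n) := Fintype.card_pos
  exact_mod_cast this

lemma Ex_succ (n : ℕ) (F : Tree (n + 1) → ℝ) :
    Ex (n + 1) F = Ex n (fun ω => (∑ p : Fin (n + 1), F (ext ω p)) / (n + 1)) := by
  unfold Ex
  rw [sum_tree_succ, card_tree_succ, ← Finset.sum_div]
  have := card_tree_pos n
  field_simp

lemma Ex_mono {n : ℕ} {F G : Tree n → ℝ} (h : ∀ ω, F ω ≤ G ω) : Ex n F ≤ Ex n G := by
  unfold Ex
  have := card_tree_pos n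
  exact div_le_div_of_nonneg_right (Finset.sum_le_sum (fun ω _ => h ω)) this.le

lemma Ex_add {n : ℕ} (F G : Tree n → ℝ) : Ex n (fun ω => F ω + G ω) = Ex n F + Ex n G := by
  unfold Ex
  rw [Finset.sum_add_distrib, add_div]

lemma Ex_mul {n : ℕ} (c : ℝ) (F : Tree n → ℝ) : Ex n (fun ω => c * F ω) = c * Ex n F := by
  unfold Ex
  rw [← Finset.mul_sum, mul_div_assoc]

lemma Ex_const {n : ℕ} (c : ℝ) : Ex n (fun _ => c) = c := by
  unfold Ex
  have := card_tree_pos n
  simp [mul_comm]
  field_simp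

lemma Ex_sum {n : ℕ} {ι : Type*} (s : Finset ι) (F : ι → Tree n → ℝ) :
    Ex n (fun ω => ∑ i ∈ s, F i ω) = ∑ i ∈ s, Ex n (F i) := by
  unfold Ex
  rw [Finset.sum_comm, Finset.sum_div]

lemma Ex_nonneg {n : ℕ} {F : Tree n → ℝ} (h : ∀ ω, 0 ≤ F ω) : 0 ≤ Ex n F := by
  have := Ex_mono (n := n) (F := fun _ => 0) h
  rwa [Ex_const] at this

open Classical in
/-- indicator -/
noncomputable def ind (p : Prop) : ℝ := if p then 1 else 0

lemma ind_nonneg (p : Prop) : 0 ≤ ind p := by unfold ind; split_ifs <;> norm_num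
lemma ind_le_one (p : Prop) : ind p ≤ 1 := by unfold ind; split_ifs <;> norm_num
lemma ind_true {p : Prop} (h : p) : ind p = 1 := by unfold ind; rw [if_pos h]
lemma ind_false {p : Prop} (h : ¬ p) : ind p = 0 := by unfold ind; rw [if_neg h]

/-- subtree size of `v` in the tree `ω` -/
noncomputable def D {n : ℕ} (ω : Tree n) (v : ℕ) : ℕ := Ds n (par ω) v

lemma D_le {n : ℕ} (ω : Tree n) (v : ℕ) : D ω v ≤ n + 1 := by
  classical
  unfold D Ds
  refine (card_filter_le _ _).trans (by simp)

open Classical in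
lemma D_ext {n : ℕ} (ω : Tree n) (p : Fin (n + 1)) {v : ℕ} (hv : v ≤ n) :
    D (ext ω p) v = D ω v + (if Sub (par ω) v p then 1 else 0) := by
  classical
  unfold D
  rw [Ds_succ (f := par ω) (par_isPar ω) (fun u hu => (par_ext_le ω p hu).symm)]
  congr 1
  have h1 : Sub (par (ext ω p)) v (n + 1) ↔ Sub (par ω) v p := by
    rw [sub_iff _ (by omega : n + 1 ≠ v), par_ext_last]
    exact (sub_congr (par_isPar ω) (fun u hu => (par_ext_le ω p hu).symm) v p
      (by have := p.isLt; omega)).symm
  simp only [h1]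

lemma D_self_zero {n : ℕ} (ω : Tree n) : D ω n = 1 := by
  classical
  unfold D Ds
  have : (range (n + 1)).filter (fun u => Sub (par ω) n u) = {n} := by
    ext u
    simp only [mem_filter, mem_range, mem_singleton]
    constructor
    · rintro ⟨h1, h2⟩
      have := sub_le (par_isPar ω) h2
      omega
    · rintro rfl
      exact ⟨by omega, sub_refl _ _⟩
  rw [this, card_singleton]

lemma sum_ind_sub {n : ℕ} (ω : Tree n) (v : ℕ) :
    ∑ p : Fin (n + 1), ind (Sub (par ω) v p) = D ω v := by
  classical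
  unfold D Ds ind
  rw [Fin.sum_univ_eq_sum_range (fun p => if Sub (par ω) v p then (1:ℝ) else 0) (n + 1)]
  rw [Finset.sum_boole]

lemma key_ind (a d : ℕ) :
    (d : ℝ) * ind (a < d + 1) = a * ind (a - 1 < d) + (d - a) * ind (a < d) := by
  rcases Nat.lt_trichotomy a d with h | h | h
  · rw [ind_true (by omega), ind_true (by omega), ind_true h]; ring
  · subst h
    rw [ind_true (by omega), ind_false (by omega : ¬ a < a)]
    rcases Nat.eq_zero_or_pos a with h0 | h0
    · subst h0; simp
    · rw [ind_true (by omega)]; ring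
  · rw [ind_false (by omega), ind_false (by omega : ¬ a < d)]
    rcases Nat.eq_zero_or_pos a with h0 | h0
    · omega
    · rw [ind_false (by omega : ¬ a - 1 < d)]; ring

noncomputable def g (n i a : ℕ) : ℝ := Ex n (fun ω => ind (a < D ω i))

open Classical in
lemma ind_shift (a d : ℕ) (q : Prop) :
    ind (a < d + (if q then 1 else 0)) = ind q * ind (a < d + 1) + (1 - ind q) * ind (a < d) := by
  by_cases h : q
  · rw [if_pos h, ind_true h]; ring
  · rw [if_neg h, ind_false h, add_zero]; ring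

lemma sum_ind_ext {n : ℕ} (ω : Tree n) {i : ℕ} (hi : i ≤ n) (a : ℕ) :
    ∑ p : Fin (n + 1), ind (a < D (ext ω p) i) =
      a * ind (a - 1 < D ω i) + (n + 1 - a) * ind (a < D ω i) := by
  have h1 : ∀ p : Fin (n + 1), ind (a < D (ext ω p) i) =
      ind (Sub (par ω) i p) * (ind (a < D ω i + 1) - ind (a < D ω i)) + ind (a < D ω i) := by
    intro p
    rw [D_ext ω p hi, ind_shift]; ring
  rw [Finset.sum_congr rfl (fun p _ => h1 p), Finset.sum_add_distrib, ← Finset.sum_mul,
    sum_ind_sub, Finset.sum_const, card_univ, Fintype.card_fin, mul_sub, key_ind]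
  push_cast [nsmul_eq_mul]
  ring

lemma g_succ {n i : ℕ} (hi : i ≤ n) (a : ℕ) :
    g (n + 1) i a = (a * g n i (a - 1) + (n + 1 - a) * g n i a) / (n + 1) := by
  unfold g
  rw [Ex_succ]
  simp_rw [sum_ind_ext _ hi]
  rw [← Ex_mul, ← Ex_mul, ← Ex_add, div_eq_inv_mul, ← Ex_mul]
  congr 1
  funext ω
  rw [div_eq_inv_mul]

noncomputable def J (n i j a b : ℕ) : ℝ :=
  Ex n (fun ω => ind (a < D ω i) * ind (b < D ω j) * ind (¬ Sub (par ω) i j))

lemma sub_ext_iff {n : ℕ} (ω : Tree n) (p : Fin (n + 1)) (i : ℕ) {j : ℕ} (hj : j ≤ n) :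
    Sub (par (ext ω p)) i j ↔ Sub (par ω) i j :=
  (sub_congr (par_isPar ω) (fun u hu => (par_ext_le ω p hu).symm) i j hj).symm

lemma sum_J_ext {n : ℕ} (ω : Tree n) {i j : ℕ} (hij : i < j) (hj : j ≤ n) (a b : ℕ) :
    ∑ p : Fin (n + 1), ind (a < D (ext ω p) i) * ind (b < D (ext ω p) j) *
        ind (¬ Sub (par (ext ω p)) i j) =
      a * (ind (a - 1 < D ω i) * ind (b < D ω j) * ind (¬ Sub (par ω) i j)) +
      b * (ind (a < D ω i) * ind (b - 1 < D ω j) * ind (¬ Sub (par ω) i j)) +
      (n + 1 - a - b) * (ind (a < D ω i) * ind (b < D ω j) * ind (¬ Sub (par ω) i j)) := by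
  by_cases hs : Sub (par ω) i j
  · have h0 : ∀ p : Fin (n + 1), ind (¬ Sub (par (ext ω p)) i j) = 0 := fun p =>
      ind_false (by rw [not_not, sub_ext_iff ω p i hj]; exact hs)
    rw [ind_false (by rw [not_not]; exact hs : ¬ ¬ Sub (par ω) i j)]
    simp [h0]
  · have h0 : ∀ p : Fin (n + 1), ind (¬ Sub (par (ext ω p)) i j) = 1 := fun p =>
      ind_true (by rw [sub_ext_iff ω p i hj]; exact hs)
    rw [ind_true hs]
    have h1 : ∀ p : Fin (n + 1), ind (a < D (ext ω p) i) * ind (b < D (ext ω p) j) *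
        ind (¬ Sub (par (ext ω p)) i j) =
        ind (Sub (par ω) i p) * ((ind (a < D ω i + 1) - ind (a < D ω i)) * ind (b < D ω j)) +
        ind (Sub (par ω) j p) * (ind (a < D ω i) * (ind (b < D ω j + 1) - ind (b < D ω j))) +
        ind (a < D ω i) * ind (b < D ω j) := by
      intro p
      rw [h0 p, D_ext ω p (by omega : i ≤ n), D_ext ω p hj, ind_shift, ind_shift]
      have h2 : ind (Sub (par ω) i p) * ind (Sub (par ω) j p) = 0 := by
        by_cases hi : Sub (par ω) i p
        · have : ¬ Sub (par ω) j p := fun hj' => hs (sub_chain (par_isPar ω) hij p hi hj')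
          rw [ind_false this, mul_zero]
        · rw [ind_false hi, zero_mul]
      linear_combination (ind (a < D ω i + 1) - ind (a < D ω i)) *
        (ind (b < D ω j + 1) - ind (b < D ω j)) * h2
    rw [Finset.sum_congr rfl (fun p _ => h1 p), Finset.sum_add_distrib, Finset.sum_add_distrib,
      ← Finset.sum_mul, ← Finset.sum_mul, sum_ind_sub, sum_ind_sub, Finset.sum_const, card_univ,
      Fintype.card_fin]
    have k1 := key_ind a (D ω i)
    have k2 := key_ind b (D ω j)
    push_cast [nsmul_eq_mul]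
    linear_combination ind (b < D ω j) * k1 + ind (a < D ω i) * k2

lemma J_succ {n i j : ℕ} (hij : i < j) (hj : j ≤ n) (a b : ℕ) :
    J (n + 1) i j a b = (a * J n i j (a - 1) b + b * J n i j a (b - 1) +
      (n + 1 - a - b) * J n i j a b) / (n + 1) := by
  unfold J
  rw [Ex_succ]
  simp_rw [sum_J_ext _ hij hj]
  rw [← Ex_mul, ← Ex_mul, ← Ex_mul, ← Ex_add, ← Ex_add, div_eq_inv_mul, ← Ex_mul]
  congr 1
  funext ω
  rw [div_eq_inv_mul]

noncomputable def W (n i j b : ℕ) : ℝ :=
  Ex n (fun ω => ind (Sub (par ω) i j) * ind (b < D ω j))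

lemma W_succ {n i j : ℕ} (hj : j ≤ n) (b : ℕ) :
    W (n + 1) i j b = (b * W n i j (b - 1) + (n + 1 - b) * W n i j b) / (n + 1) := by
  unfold W
  rw [Ex_succ]
  have : ∀ ω : Tree n, ∑ p : Fin (n + 1), ind (Sub (par (ext ω p)) i j) * ind (b < D (ext ω p) j) =
      b * (ind (Sub (par ω) i j) * ind (b - 1 < D ω j)) +
      (n + 1 - b) * (ind (Sub (par ω) i j) * ind (b < D ω j)) := by
    intro ω
    simp_rw [sub_ext_iff ω _ i hj]
    rw [← Finset.mul_sum, sum_ind_ext ω hj]; ring
  simp_rw [this]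
  rw [← Ex_mul, ← Ex_mul, ← Ex_add, div_eq_inv_mul, ← Ex_mul]
  congr 1
  funext ω
  rw [div_eq_inv_mul]

lemma g_self (n a : ℕ) : g n n a = ind (a = 0) := by
  unfold g
  have : ∀ ω : Tree n, ind (a < D ω n) = ind (a = 0) := by
    intro ω
    rw [D_self_zero]
    congr 1
    exact propext Nat.lt_one_iff
  simp_rw [this]
  exact Ex_const _

lemma g_nonneg (n i a : ℕ) : 0 ≤ g n i a := Ex_nonneg (fun _ => ind_nonneg _)

lemma g_anti (n i a : ℕ) : g n i a ≤ g n i (a - 1) := by
  unfold g
  apply Ex_mono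
  intro ω
  by_cases h : a < D ω i
  · rw [ind_true h, ind_true (by omega)]
  · rw [ind_false h]; exact ind_nonneg _

lemma g_le_one (n i a : ℕ) : g n i a ≤ 1 := by
  unfold g
  have := Ex_mono (n := n) (F := fun ω => ind (a < D ω i)) (G := fun _ => 1) (fun _ => ind_le_one _)
  rwa [Ex_const] at this

lemma D_add_le {n : ℕ} (ω : Tree n) {i j : ℕ} (hij : i < j) (hs : ¬ Sub (par ω) i j) :
    D ω i + D ω j ≤ n + 1 := by
  classical
  unfold D Ds
  rw [← card_union_of_disjoint]
  · refine (card_le_card (union_subset (filter_subset _ _) (filter_subset _ _))).trans (by simp)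
  · rw [disjoint_filter]
    intro u _ h1 h2
    exact hs (sub_chain (par_isPar ω) hij u h1 h2)

lemma J_le {n i j : ℕ} (hij : i < j) (hj : j ≤ n) (a b : ℕ) :
    J n i j a b ≤ g n i a * g n j b := by
  induction n, hj using Nat.le_induction generalizing a b with
  | base =>
    rw [g_self]
    unfold J g
    rw [mul_comm (Ex j _), ← Ex_mul]
    apply Ex_mono
    intro ω
    rw [D_self_zero]
    have h1 : ind (b < 1) = ind (b = 0) := by congr 1; exact propext Nat.lt_one_iff
    rw [h1]
    have := ind_le_one (¬ Sub (par ω) i j)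
    have h2 := ind_nonneg (¬ Sub (par ω) i j)
    have h3 := mul_nonneg (ind_nonneg (a < D ω i)) (ind_nonneg (b = 0))
    nlinarith
  | succ n hjn ih =>
    by_cases hab : a + b ≤ n + 1
    · rw [J_succ hij hjn, g_succ (by omega : i ≤ n), g_succ hjn]
      have hn : (0:ℝ) < n + 1 := by positivity
      have h1 := ih (a - 1) b
      have h2 := ih a (b - 1)
      have h3 := ih a b
      have hab' : (a : ℝ) + b ≤ n + 1 := by exact_mod_cast hab
      have ha : (0:ℝ) ≤ a := by positivity
      have hb : (0:ℝ) ≤ b := by positivity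
      have e1 := g_anti n i a
      have e2 := g_anti n j b
      have p1 := g_nonneg n i a
      have p2 := g_nonneg n j b
      rw [div_mul_div_comm, div_le_div_iff₀ hn (by positivity)]
      have h4 : a * J n i j (a - 1) b + b * J n i j a (b - 1) + (n + 1 - a - b) * J n i j a b ≤
          a * (g n i (a-1) * g n j b) + b * (g n i a * g n j (b - 1)) +
          (n + 1 - a - b) * (g n i a * g n j b) := by
        have := mul_le_mul_of_nonneg_left h1 ha
        have := mul_le_mul_of_nonneg_left h2 hb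
        have := mul_le_mul_of_nonneg_left h3 (by linarith : (0:ℝ) ≤ n + 1 - a - b)
        linarith
      have h5 : 0 ≤ (a:ℝ) * b * ((g n i (a-1) - g n i a) * (g n j (b-1) - g n j b)) := by
        have := mul_nonneg (sub_nonneg.2 e1) (sub_nonneg.2 e2)
        positivity
      nlinarith [mul_le_mul_of_nonneg_right h4 (by positivity : (0:ℝ) ≤ ((n:ℝ)+1)*(n+1))]
    · have : J (n + 1) i j a b = 0 := by
        unfold J
        have : ∀ ω : Tree (n + 1), ind (a < D ω i) * ind (b < D ω j) * ind (¬ Sub (par ω) i j) = 0 := by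
          intro ω
          by_cases hs : Sub (par ω) i j
          · rw [ind_false (by rw [not_not]; exact hs : ¬ ¬ Sub (par ω) i j), mul_zero]
          · have := D_add_le ω hij hs
            by_cases h1 : a < D ω i
            · rw [ind_false (by omega : ¬ b < D ω j)]; ring
            · rw [ind_false h1]; ring
        simp_rw [this]
        exact Ex_const _
      rw [this]
      exact mul_nonneg (g_nonneg _ _ _) (g_nonneg _ _ _)

lemma Ex_D {n i : ℕ} (hi : i ≤ n) : Ex n (fun ω => (D ω i : ℝ)) = (n + 1) / (i + 1) := by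
  induction n, hi using Nat.le_induction with
  | base =>
    have : ∀ ω : Tree i, (D ω i : ℝ) = 1 := fun ω => by rw [D_self_zero]; simp
    simp_rw [this]
    rw [Ex_const, div_self (by positivity)]
  | succ n hin ih =>
    rw [Ex_succ]
    have : ∀ ω : Tree n, (∑ p : Fin (n + 1), (D (ext ω p) i : ℝ)) / (n + 1) =
        ((n + 2) / (n + 1)) * D ω i := by
      intro ω
      have h1 : ∀ p : Fin (n + 1), (D (ext ω p) i : ℝ) = D ω i + ind (Sub (par ω) i p) := by
        intro p
        rw [D_ext ω p hin]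
        unfold ind
        push_cast
        rfl
      rw [Finset.sum_congr rfl (fun p _ => h1 p), Finset.sum_add_distrib, sum_ind_sub,
        Finset.sum_const, card_univ, Fintype.card_fin]
      push_cast [nsmul_eq_mul]
      field_simp
      ring
    simp_rw [this]
    rw [Ex_mul, ih]
    push_cast
    field_simp
    ring

lemma W_eq {n i j : ℕ} (hij : i < j) (hj : j ≤ n) (b : ℕ) :
    W n i j b = 1 / (i + 1) * g n j b := by
  induction n, hj using Nat.le_induction generalizing b with
  | base =>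
    rw [g_self]
    unfold W
    have h1 : ∀ ω : Tree j, ind (Sub (par ω) i j) * ind (b < D ω j) =
        ind (b = 0) * ind (Sub (par ω) i j) := by
      intro ω
      rw [D_self_zero, mul_comm]
      congr 1
      congr 1; exact propext Nat.lt_one_iff
    simp_rw [h1]
    rw [Ex_mul, mul_comm]
    congr 1
    obtain ⟨m, rfl⟩ : ∃ m, j = m + 1 := ⟨j - 1, by omega⟩
    rw [Ex_succ]
    have h2 : ∀ ω : Tree m, (∑ p : Fin (m + 1), ind (Sub (par (ext ω p)) i (m + 1))) / (m + 1) =
        (1 / (m + 1)) * (D ω i : ℝ) := by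
      intro ω
      have h3 : ∀ p : Fin (m + 1), ind (Sub (par (ext ω p)) i (m + 1)) = ind (Sub (par ω) i p) := by
        intro p
        congr 1
        rw [sub_iff _ (by omega : m + 1 ≠ i), par_ext_last]
        exact propext (sub_ext_iff ω p i (by have := p.isLt; omega))
      simp_rw [h3]
      rw [sum_ind_sub]; ring
    simp_rw [h2]
    rw [Ex_mul, Ex_D (by omega)]
    field_simp
  | succ n hjn ih =>
    rw [W_succ hjn, g_succ hjn, ih, ih]
    ring

lemma pair_le {n i j : ℕ} (hij : i < j) (hj : j ≤ n) (a : ℕ) :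
    Ex n (fun ω => ind (a < D ω i) * ind (a < D ω j)) ≤
      g n i a * g n j a + 1 / (i + 1) * g n j a := by
  have h1 := J_le hij hj a a
  have h2 := W_eq hij hj a
  rw [← h2]
  refine le_trans ?_ (add_le_add_left h1 _)
  unfold J W
  rw [← Ex_add]
  apply Ex_mono
  intro ω
  by_cases hs : Sub (par ω) i j
  · rw [ind_true hs, ind_false (by rw [not_not]; exact hs : ¬ ¬ Sub (par ω) i j)]
    have := mul_le_mul_of_nonneg_right (ind_le_one (a < D ω i)) (ind_nonneg (a < D ω j))
    linarith
  · rw [ind_true hs, ind_false hs]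
    linarith

lemma g_zero {n i : ℕ} (hi : i ≤ n) : g n i 0 = 1 := by
  unfold g
  have : ∀ ω : Tree n, ind (0 < D ω i) = 1 := by
    intro ω
    apply ind_true
    classical
    unfold D Ds
    rw [card_pos]
    exact ⟨i, by simp; exact ⟨by omega, sub_refl _ _⟩⟩
  simp_rw [this]
  exact Ex_const _

lemma sum_g {n a : ℕ} (ha : a ≤ n) : ∑ i ∈ range (n + 1), g n i a = (n + 1) / (a + 1) := by
  induction n generalizing a with
  | zero =>
    obtain rfl : a = 0 := by omega
    simp [g_self, ind]
  | succ n ih =>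
    rcases Nat.eq_zero_or_pos a with h0 | h0
    · subst h0
      rw [Finset.sum_congr rfl (fun i hi => g_zero (by simpa [Nat.lt_succ_iff] using hi))]
      simp
    · rw [sum_range_succ, g_self, ind_false (by omega), add_zero,
        Finset.sum_congr rfl (fun i hi => g_succ (by simpa [Nat.lt_succ_iff] using hi) a),
        ← Finset.sum_div, Finset.sum_add_distrib, ← Finset.mul_sum, ← Finset.mul_sum,
        ih (by omega : a - 1 ≤ n)]
      have ha0 : (0:ℝ) < a := by exact_mod_cast h0
      have e1 : ((a - 1 : ℕ) : ℝ) = a - 1 := by push_cast [Nat.cast_sub h0]; ring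
      rw [e1, sub_add_cancel]
      by_cases ha2 : a ≤ n
      · rw [ih ha2]
        push_cast
        field_simp
        ring
      · obtain rfl : a = n + 1 := by omega
        push_cast
        field_simp
        ring

noncomputable def H (j : ℕ) : ℝ := ∑ i ∈ range j, 1 / ((i : ℝ) + 1)

lemma H_succ (j : ℕ) : H (j + 1) = H j + 1 / (j + 1) := by
  unfold H; rw [sum_range_succ]

lemma H_nonneg (j : ℕ) : 0 ≤ H j := Finset.sum_nonneg (fun i _ => by positivity)

lemma sum_H (n : ℕ) : ∑ j ∈ range (n + 1), H j = (n + 1) * (H (n + 1) - H 1) := by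
  induction n with
  | zero => simp [H]
  | succ n ih =>
    rw [sum_range_succ, ih, H_succ (n + 1)]
    have : H 1 = 1 := by simp [H]
    rw [this]
    push_cast
    field_simp
    ring

lemma sum_gH {n a : ℕ} (ha : a ≤ n) :
    ∑ j ∈ range (n + 1), g n j a * H j = (n + 1) / (a + 1) * (H (n + 1) - H (a + 1)) := by
  induction n generalizing a with
  | zero =>
    obtain rfl : a = 0 := by omega
    simp [H]
  | succ n ih =>
    rcases Nat.eq_zero_or_pos a with h0 | h0
    · subst h0
      rw [Finset.sum_congr rfl (fun i hi => by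
        rw [g_zero (by simpa [Nat.lt_succ_iff] using hi : i ≤ n + 1), one_mul]), sum_H]
      simp
    · rw [sum_range_succ, g_self, ind_false (by omega), zero_mul, add_zero,
        Finset.sum_congr rfl (fun i hi => by
          rw [g_succ (by simpa [Nat.lt_succ_iff] using hi) a])]
      have e0 : ∀ i, (a * g n i (a - 1) + (n + 1 - a) * g n i a) / ((n:ℝ) + 1) * H i =
          (a * (g n i (a - 1) * H i) + (n + 1 - a) * (g n i a * H i)) / (n + 1) := by
        intro i; ring
      simp_rw [e0]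
      rw [← Finset.sum_div, Finset.sum_add_distrib, ← Finset.mul_sum, ← Finset.mul_sum,
        ih (by omega : a - 1 ≤ n)]
      have ha0 : (0:ℝ) < a := by exact_mod_cast h0
      have e1 : ((a - 1 : ℕ) : ℝ) = a - 1 := by push_cast [Nat.cast_sub h0]; ring
      have e2 : a - 1 + 1 = a := by omega
      rw [e1, e2, sub_add_cancel]
      have e3 := H_succ a
      have e4 := H_succ (n + 1)
      push_cast at e4
      by_cases ha2 : a ≤ n
      · rw [ih ha2, e3, e4]
        push_cast
        field_simp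
        ring
      · obtain rfl : a = n + 1 := by omega
        rw [e4]
        push_cast
        field_simp
        ring

/-- number of the first `K` vertices with more than `a` vertices in their subtree -/
noncomputable def N {n : ℕ} (ω : Tree n) (K a : ℕ) : ℝ := ∑ i ∈ range K, ind (a < D ω i)

lemma variance_le {n K a : ℕ} (hK : K ≤ n + 1) :
    Ex n (fun ω => (N ω K a - ∑ i ∈ range K, g n i a) ^ 2) ≤
      ∑ i ∈ range K, g n i a + 2 * ∑ j ∈ range K, g n j a * H j := by
  set μ := ∑ i ∈ range K, g n i a with hμ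
  have h1 : ∀ ω : Tree n, (N ω K a - μ) ^ 2 =
      ∑ i ∈ range K, ∑ j ∈ range K, ind (a < D ω i) * ind (a < D ω j) +
      ((-2 * μ) * ∑ i ∈ range K, ind (a < D ω i) + μ ^ 2) := by
    intro ω
    rw [← Finset.sum_mul_sum]
    unfold N
    ring
  simp_rw [h1]
  rw [Ex_add, Ex_add, Ex_mul, Ex_const, Ex_sum, Ex_sum]
  have h2 : ∑ i ∈ range K, Ex n (fun ω => ind (a < D ω i)) = μ := rfl
  rw [h2]
  have h3 : ∀ i ∈ range K, Ex n (fun ω => ∑ j ∈ range K, ind (a < D ω i) * ind (a < D ω j)) ≤
      ∑ j ∈ range K, (g n i a * g n j a + (if i < j then 1 / ((i:ℝ) + 1) * g n j a else 0) +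
        (if j < i then 1 / ((j:ℝ) + 1) * g n i a else 0) + (if i = j then g n i a else 0)) := by
    intro i hi
    rw [Ex_sum]
    apply Finset.sum_le_sum
    intro j hj
    rw [mem_range] at hi hj
    rcases Nat.lt_trichotomy i j with h | h | h
    · rw [if_pos h, if_neg (by omega), if_neg (by omega), add_zero, add_zero]
      exact pair_le h (by omega) a
    · subst h
      simp only [lt_irrefl, if_false, if_true, add_zero]
      have h4 : ∀ ω : Tree n, ind (a < D ω i) * ind (a < D ω i) = ind (a < D ω i) := by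
        intro ω
        unfold ind; split_ifs <;> simp
      simp_rw [h4]
      have := mul_nonneg (g_nonneg n i a) (g_nonneg n i a)
      unfold g at this ⊢
      linarith
    · rw [if_neg (by omega), if_pos h, if_neg (by omega), add_zero, add_zero]
      have := pair_le h (by omega : i ≤ n) a
      rw [mul_comm (g n i a)]
      refine le_trans (le_of_eq ?_) this
      congr 1
      funext ω
      ring
  have h4 := Finset.sum_le_sum h3
  simp only [Finset.sum_add_distrib] at h4
  have h5 : ∑ i ∈ range K, ∑ j ∈ range K, g n i a * g n j a = μ ^ 2 := by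
    rw [← Finset.sum_mul_sum, sq]
  have h6 : ∑ i ∈ range K, ∑ j ∈ range K, (if i = j then g n i a else 0) = μ := by
    apply Finset.sum_congr rfl
    intro i hi
    rw [Finset.sum_ite_eq, if_pos hi]
  have h7 : ∀ j ∈ range K, ∑ i ∈ range K, (if i < j then 1 / ((i:ℝ) + 1) * g n j a else 0) =
      g n j a * H j := by
    intro j hj
    rw [mem_range] at hj
    rw [← Finset.sum_filter]
    have : (range K).filter (fun i => i < j) = range j := by
      ext i; simp only [mem_filter, mem_range]; omega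
    rw [this, H, ← Finset.sum_mul, mul_comm]
  have h8 : ∑ i ∈ range K, ∑ j ∈ range K, (if i < j then 1 / ((i:ℝ) + 1) * g n j a else 0) =
      ∑ j ∈ range K, g n j a * H j := by
    rw [Finset.sum_comm]
    exact Finset.sum_congr rfl h7
  have h9 : ∑ i ∈ range K, ∑ j ∈ range K, (if j < i then 1 / ((j:ℝ) + 1) * g n i a else 0) =
      ∑ j ∈ range K, g n j a * H j := Finset.sum_congr rfl h7
  rw [h5, h6, h8, h9] at h4
  have h10 : ∀ i ∈ range K, Ex n (fun ω => ∑ j ∈ range K, ind (a < D ω i) * ind (a < D ω j)) =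
      Ex n (fun ω => ∑ j ∈ range K, ind (a < D ω i) * ind (a < D ω j)) := fun _ _ => rfl
  nlinarith [h4]

/-- probability of an event depending on the tree -/
noncomputable def Pr (n : ℕ) (E : Tree n → Prop) : ℝ := Ex n (fun ω => ind (E ω))

lemma Pr_mono {n : ℕ} {E F : Tree n → Prop} (h : ∀ ω, E ω → F ω) : Pr n E ≤ Pr n F := by
  apply Ex_mono
  intro ω
  by_cases hE : E ω
  · rw [ind_true hE, ind_true (h ω hE)]
  · rw [ind_false hE]; exact ind_nonneg _

lemma Pr_or {n : ℕ} (E F : Tree n → Prop) : Pr n (fun ω => E ω ∨ F ω) ≤ Pr n E + Pr n F := by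
  unfold Pr
  rw [← Ex_add]
  apply Ex_mono
  intro ω
  by_cases hE : E ω
  · rw [ind_true hE]; have := ind_le_one (E ω ∨ F ω); have := ind_nonneg (F ω); linarith
  · by_cases hF : F ω
    · rw [ind_true hF]; have := ind_le_one (E ω ∨ F ω); have := ind_nonneg (E ω); linarith
    · rw [ind_false (by tauto), ind_false hE, ind_false hF]; norm_num

lemma markov {n : ℕ} (X : Tree n → ℝ) (hX : ∀ ω, 0 ≤ X ω) {t : ℝ} (ht : 0 < t) :
    Pr n (fun ω => t ≤ X ω) ≤ Ex n X / t := by
  rw [le_div_iff₀ ht]
  unfold Pr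
  rw [mul_comm, ← Ex_mul]
  apply Ex_mono
  intro ω
  by_cases h : t ≤ X ω
  · rw [ind_true h]; linarith
  · rw [ind_false h]; linarith [hX ω]

lemma chebyshev {n K a : ℕ} (hK : K ≤ n + 1) {t : ℝ} (ht : 0 < t) :
    Pr n (fun ω => t ≤ |N ω K a - ∑ i ∈ range K, g n i a|) ≤
      (∑ i ∈ range K, g n i a + 2 * ∑ j ∈ range K, g n j a * H j) / t ^ 2 := by
  have h1 : Pr n (fun ω => t ≤ |N ω K a - ∑ i ∈ range K, g n i a|) ≤
      Pr n (fun ω => t ^ 2 ≤ (N ω K a - ∑ i ∈ range K, g n i a) ^ 2) := by
    apply Pr_mono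
    intro ω h
    rw [← sq_abs (N ω K a - ∑ i ∈ range K, g n i a)]
    exact pow_le_pow_left₀ ht.le h 2
  refine h1.trans ((markov _ (fun _ => sq_nonneg _) (by positivity)).trans ?_)
  exact div_le_div_of_nonneg_right (variance_le hK) (by positivity)

lemma g_formula {n i : ℕ} (hi : i ≤ n) {a : ℕ} (ha : a ≤ n) :
    g n i a * (n.choose i : ℝ) = ((n - a).choose i : ℝ) := by
  induction n, hi using Nat.le_induction generalizing a with
  | base =>
    rw [g_self, Nat.choose_self]
    rcases Nat.eq_zero_or_pos a with h0 | h0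
    · subst h0; simp [ind]
    · rw [ind_false (by omega), Nat.choose_eq_zero_of_lt (by omega)]; simp
  | succ n hin ih =>
    have h1 : ((n + 1).choose i : ℝ) * ((n : ℝ) + 1 - i) = (n.choose i) * (n + 1) := by
      have := Nat.choose_mul_succ_eq n i
      have h2 : ((n.choose i * (n + 1) : ℕ) : ℝ) = (((n + 1).choose i * (n + 1 - i) : ℕ) : ℝ) := by
        rw [this]
      push_cast [Nat.cast_sub (by omega : i ≤ n + 1)] at h2
      linarith
    have hpos : (0:ℝ) < (n : ℝ) + 1 - i := by
      have : (i:ℝ) ≤ n := by exact_mod_cast hin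
      linarith
    have hn : (0:ℝ) < (n : ℝ) + 1 := by positivity
    apply mul_right_cancel₀ hpos.ne'
    rw [mul_assoc, h1, g_succ hin]
    rcases Nat.eq_zero_or_pos a with h0 | h0
    · subst h0
      have := ih (a := 0) (by omega)
      simp only [Nat.sub_zero] at this ⊢
      rw [h1, Nat.cast_zero, zero_mul, zero_add, sub_zero]
      field_simp
      linarith
    · have e1 := ih (a := a - 1) (by omega)
      have e2 : n - (a - 1) = n + 1 - a := by omega
      rw [e2] at e1
      by_cases ha2 : a ≤ n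
      · have e3 := ih ha2
        have e4 : ((n + 1 - a).choose i : ℝ) * ((n : ℝ) + 1 - a - i) =
            ((n - a).choose i) * ((n:ℝ) + 1 - a) := by
          have := Nat.choose_mul_succ_eq (n - a) i
          have e5 : n - a + 1 = n + 1 - a := by omega
          rw [e5] at this
          have h2 : (((n - a).choose i * (n + 1 - a) : ℕ) : ℝ) =
            (((n + 1 - a).choose i * (n + 1 - a - i) : ℕ) : ℝ) := by rw [this]
          push_cast [Nat.cast_sub (by omega : a ≤ n + 1)] at h2
          by_cases hia : i ≤ n + 1 - a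
          · rw [Nat.cast_sub hia, Nat.cast_sub (by omega : a ≤ n + 1)] at h2
            push_cast at h2
            linarith
          · rw [Nat.choose_eq_zero_of_lt (by omega : n + 1 - a < i),
              Nat.choose_eq_zero_of_lt (by omega : n - a < i)]
            simp
        field_simp
        linear_combination (a : ℝ) * e1 + ((n:ℝ) + 1 - a) * e3 - e4
      · obtain rfl : a = n + 1 := by omega
        push_cast
        field_simp
        have e6 : (n + 1 - (n + 1)).choose i = (n - (n + 1 - 1)).choose i := by congr 1; omega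
        simp only [Nat.sub_self] at e1 ⊢
        rcases Nat.eq_zero_or_pos i with hi0 | hi0
        · subst hi0
          simp at e1 ⊢
          rw [e1]; ring
        · rw [Nat.choose_eq_zero_of_lt hi0] at e1 ⊢
          have e7 : n + 1 - 1 = n := by omega
          try rw [e7] at e1
          try rw [e7]
          push_cast at e1 ⊢
          linear_combination ((n : ℝ) + 1) * e1

open Filter Topology in
lemma g_tendsto (i : ℕ) {x : ℝ} (hx1 : x < 1) (a : ℕ → ℕ)
    (ha : Tendsto (fun n : ℕ => (a n : ℝ) / n) atTop (𝓝 x)) :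
    Tendsto (fun n => g n i (a n)) atTop (𝓝 ((1 - x) ^ i)) := by
  have hev : ∀ M : ℕ, ∀ᶠ n : ℕ in atTop, a n + M ≤ n := by
    intro M
    have h1 : Tendsto (fun n : ℕ => (a n : ℝ) / n + (M : ℝ) / n) atTop (𝓝 (x + 0)) :=
      ha.add (tendsto_const_div_atTop_nhds_zero_nat _)
    rw [add_zero] at h1
    filter_upwards [h1.eventually (gt_mem_nhds hx1), eventually_gt_atTop 0] with n hn hn0
    have hn0' : (0:ℝ) < n := by exact_mod_cast hn0
    rw [← add_div, div_lt_one hn0'] at hn
    exact_mod_cast hn.le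
  have hq : Tendsto (fun n : ℕ => (((n - a n).choose i : ℕ) : ℝ) / (n.choose i : ℝ)) atTop
      (𝓝 ((1 - x) ^ i)) := by
    induction i with
    | zero => simp
    | succ i ih =>
      rw [pow_succ]
      have hr : Tendsto (fun n : ℕ => (1 - (a n : ℝ) / n - (i : ℝ) / n) / (1 - (i : ℝ) / n)) atTop
          (𝓝 (1 - x)) := by
        have h0 : Tendsto (fun n : ℕ => (i : ℝ) / n) atTop (𝓝 0) :=
          tendsto_const_div_atTop_nhds_zero_nat _
        have h1 : Tendsto (fun n : ℕ => 1 - (a n : ℝ) / n - (i : ℝ) / n) atTop (𝓝 (1 - x - 0)) :=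
          ((tendsto_const_nhds (x := (1:ℝ))).sub ha).sub h0
        have h2 : Tendsto (fun n : ℕ => 1 - (i : ℝ) / n) atTop (𝓝 (1 - 0)) :=
          (tendsto_const_nhds (x := (1:ℝ))).sub h0
        have h3 := h1.div h2 (by norm_num)
        have h4 : (1 - x - 0) / (1 - 0) = 1 - x := by ring
        rw [h4] at h3
        exact h3
      refine (ih.mul hr).congr' ?_
      filter_upwards [hev (i + 1), eventually_gt_atTop (i + 1)] with n h1 h2
      have hn0 : (0:ℝ) < n := by
        have : 0 < n := by omega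
        exact_mod_cast this
      have e1 : (n.choose (i + 1) : ℝ) * (i + 1) = n.choose i * ((n:ℝ) - i) := by
        have := Nat.choose_succ_right_eq n i
        have h3 : ((n.choose (i + 1) * (i + 1) : ℕ) : ℝ) = ((n.choose i * (n - i) : ℕ) : ℝ) := by
          rw [this]
        push_cast [Nat.cast_sub (by omega : i ≤ n)] at h3
        exact h3
      have e2 : ((n - a n).choose (i + 1) : ℝ) * (i + 1) =
          (n - a n).choose i * ((n:ℝ) - a n - i) := by
        have := Nat.choose_succ_right_eq (n - a n) i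
        have h3 : (((n - a n).choose (i + 1) * (i + 1) : ℕ) : ℝ) =
            (((n - a n).choose i * (n - a n - i) : ℕ) : ℝ) := by rw [this]
        push_cast [Nat.cast_sub (by omega : i ≤ n - a n), Nat.cast_sub (by omega : a n ≤ n)] at h3
        exact h3
      have c1 : (0:ℝ) < n.choose i := by exact_mod_cast Nat.choose_pos (by omega)
      have c2 : (0:ℝ) < n.choose (i + 1) := by exact_mod_cast Nat.choose_pos (by omega)
      have c3 : (0:ℝ) < (n:ℝ) - i := by
        have : (i:ℝ) < n := by exact_mod_cast (by omega : i < n)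
        linarith
      have c4 : (0:ℝ) < (i:ℝ) + 1 := by positivity
      have e3 : (1 - (a n : ℝ) / n - (i : ℝ) / n) / (1 - (i : ℝ) / n) =
          ((n:ℝ) - a n - i) / (n - i) := by
        have : (1 - (i:ℝ) / n) = (n - i) / n := by field_simp
        rw [this]
        have h5 : (1 - (a n : ℝ) / n - (i : ℝ) / n) = ((n:ℝ) - a n - i) / n := by field_simp
        rw [h5]
        field_simp
      rw [e3, div_mul_div_comm, div_eq_div_iff (by positivity) (by positivity)]
      apply mul_right_cancel₀ c4.ne'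
      linear_combination ((n - a n).choose i : ℝ) * ((n:ℝ) - a n - i) * e1 -
        (n.choose i : ℝ) * ((n:ℝ) - i) * e2
  refine hq.congr' ?_
  filter_upwards [hev 0, eventually_ge_atTop i] with n h1 h2
  have := g_formula h2 (by omega : a n ≤ n)
  have c1 : (0:ℝ) < n.choose i := by exact_mod_cast Nat.choose_pos h2
  rw [← this]
  field_simp


/-- The uniform attachment tree with parent choices `ω`, as a graph on `{0,…,n}`:
vertex `i + 1` is joined to the vertex `ω i ∈ {0,…,i}`. -/
def graph {n : ℕ} (ω : Tree n) : SimpleGraph (Fin (n + 1)) :=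
  SimpleGraph.fromRel (fun u v => ∃ i : Fin n, u = i.succ ∧ (v : ℕ) = ω i)

/-- The centrality of `v`: the number of vertices of the largest connected component of
`G - v` (zero if there is none). -/
noncomputable def psi {n : ℕ} (G : SimpleGraph (Fin (n + 1))) (v : Fin (n + 1)) : ℕ :=
  ⨆ C : (G.induce ({v}ᶜ : Set (Fin (n + 1)))).ConnectedComponent, C.supp.ncard

/-- The set of the `m` most central vertices, ties broken by the permutation `σ`: the vertices
`v` for which fewer than `m` vertices `u` come before `v`, where `u` comes before `v` if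
`psi u < psi v`, or `psi u = psi v` and `σ u < σ v`. -/
noncomputable def top {n : ℕ} (m : ℕ) (ω : Tree n) (σ : Equiv.Perm (Fin (n + 1))) :
    Finset (Fin (n + 1)) :=
  univ.filter (fun v => (univ.filter (fun u => psi (graph ω) u < psi (graph ω) v ∨
    (psi (graph ω) u = psi (graph ω) v ∧ σ u < σ v))).card < m)

/-- The fraction of the `K` earliest vertices among the `⌈cK⌉` most central ones. -/
noncomputable def R {n : ℕ} (c : ℝ) (K : ℕ) (ω : Tree n) (σ : Equiv.Perm (Fin (n + 1))) : ℝ :=
  (((top ⌈c * K⌉₊ ω σ).filter (fun v : Fin (n + 1) => (v : ℕ) < K)).card : ℝ) / K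

open Classical in
/-- The probability of an event depending on the tree and the tie-breaking permutation, both
uniform and independent. -/
noncomputable def prob (n : ℕ) (E : Tree n → Equiv.Perm (Fin (n + 1)) → Prop) : ℝ :=
  ((univ.filter (fun x : Tree n × Equiv.Perm (Fin (n + 1)) => E x.1 x.2)).card : ℝ) /
    Fintype.card (Tree n × Equiv.Perm (Fin (n + 1)))

lemma graph_adj {n : ℕ} (ω : Tree n) (u v : Fin (n + 1)) :
    (graph ω).Adj u v ↔ (0 < (u : ℕ) ∧ par ω u = v) ∨ (0 < (v : ℕ) ∧ par ω v = u) := by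
  have key : ∀ u v : Fin (n + 1), (∃ i : Fin n, u = i.succ ∧ (v : ℕ) = ω i) ↔
      (0 < (u : ℕ) ∧ par ω u = v) := by
    intro u v
    constructor
    · rintro ⟨i, rfl, hv⟩
      refine ⟨by simp, ?_⟩
      unfold par
      rw [dif_pos ⟨by simp, by simp⟩]
      rw [hv]
      congr 1
    · rintro ⟨h0, h1⟩
      refine ⟨⟨u - 1, by omega⟩, ?_, ?_⟩
      · ext; simp; omega
      · unfold par at h1
        rw [dif_pos ⟨h0, by omega⟩] at h1
        rw [← h1]
  unfold graph
  rw [SimpleGraph.fromRel_adj, key, key]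
  constructor
  · rintro ⟨_, h⟩; exact h
  · intro h
    refine ⟨?_, h⟩
    rintro rfl
    rcases h with ⟨h0, h⟩ | ⟨h0, h⟩ <;>
    · have := (par_isPar ω).lt _ h0
      omega

lemma reach_sub {n : ℕ} (ω : Tree n) (v : Fin (n + 1))
    {u w : ({v}ᶜ : Set (Fin (n + 1)))}
    (h : ((graph ω).induce ({v}ᶜ : Set (Fin (n + 1)))).Reachable u w) :
    Sub (par ω) v (u : Fin (n + 1)) ↔ Sub (par ω) v (w : Fin (n + 1)) := by
  obtain ⟨p⟩ := h
  induction p with
  | nil => rfl
  | @cons a b c hadj p ih =>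
    rw [← ih]
    have h1 : (graph ω).Adj (a : Fin (n + 1)) (b : Fin (n + 1)) := hadj
    have ha : ((a : Fin (n + 1)) : ℕ) ≠ v := by
      intro h
      exact a.2 (Fin.ext h)
    have hb : ((b : Fin (n + 1)) : ℕ) ≠ v := by
      intro h
      exact b.2 (Fin.ext h)
    rw [graph_adj] at h1
    rcases h1 with ⟨_, h1⟩ | ⟨_, h1⟩
    · rw [sub_iff _ ha, h1]
    · rw [sub_iff _ hb, h1]

lemma reach_zero {n : ℕ} (ω : Tree n) {v : Fin (n + 1)} (hv : v ≠ 0) :
    ∀ (u : ℕ) (hu : u < n + 1) (hs : ¬ Sub (par ω) v u),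
      ∃ hu' : (⟨u, hu⟩ : Fin (n + 1)) ∈ ({v}ᶜ : Set (Fin (n + 1))),
      ((graph ω).induce ({v}ᶜ : Set (Fin (n + 1)))).Reachable
        ⟨0, fun h => hv h.symm⟩ ⟨⟨u, hu⟩, hu'⟩ := by
  intro u
  induction u using Nat.strong_induction_on with
  | _ u ih =>
    intro hu hs
    have huv : u ≠ v := by
      rintro rfl
      exact hs (sub_refl _ _)
    have hmem : (⟨u, hu⟩ : Fin (n + 1)) ∈ ({v}ᶜ : Set (Fin (n + 1))) := by
      intro h
      apply huv
      have : (⟨u, hu⟩ : Fin (n + 1)) = v := h
      rw [← this]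
    refine ⟨hmem, ?_⟩
    rcases Nat.eq_zero_or_pos u with h0 | h0
    · subst h0
      exact SimpleGraph.Reachable.refl _
    · have hlt := (par_isPar ω).lt u h0
      have hs' : ¬ Sub (par ω) v (par ω u) := by rwa [← sub_iff _ huv]
      obtain ⟨hm', hr⟩ := ih (par ω u) hlt (by omega) hs'
      refine hr.trans (SimpleGraph.Adj.reachable ?_)
      show (graph ω).Adj _ _
      rw [graph_adj]
      right
      exact ⟨h0, rfl⟩

open Classical in
lemma D_eq {n : ℕ} (ω : Tree n) (v : ℕ) :
    D ω v = (univ.filter (fun u : Fin (n + 1) => Sub (par ω) v u)).card := by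
  unfold D Ds
  rw [← card_map Fin.valEmbedding]
  congr 1
  ext u
  simp only [mem_filter, mem_range, mem_map, mem_univ, true_and, Fin.valEmbedding_apply]
  constructor
  · rintro ⟨h1, h2⟩
    exact ⟨⟨u, h1⟩, h2, rfl⟩
  · rintro ⟨w, h1, rfl⟩
    exact ⟨w.isLt, h1⟩

lemma psi_bdd {n : ℕ} (G : SimpleGraph (Fin (n + 1))) (v : Fin (n + 1)) :
    BddAbove (Set.range fun C : (G.induce ({v}ᶜ : Set (Fin (n + 1)))).ConnectedComponent =>
      C.supp.ncard) := Set.Finite.bddAbove (Set.finite_range _)

lemma psi_ge {n : ℕ} (ω : Tree n) (v : Fin (n + 1)) :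
    n + 1 ≤ psi (graph ω) v + D ω v := by
  classical
  by_cases hv : v = 0
  · subst hv
    have : D ω ((0 : Fin (n + 1)) : ℕ) = n + 1 := by
      rw [D_eq]
      have h1 : univ.filter (fun u : Fin (n + 1) => Sub (par ω) ((0 : Fin (n + 1)) : ℕ) u) = univ := by
        apply filter_true_of_mem
        intro u _
        obtain ⟨u, hu⟩ := u
        simp only [Fin.val_zero]
        induction u using Nat.strong_induction_on with
        | _ u ih =>
          rcases Nat.eq_zero_or_pos u with h0 | h0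
          · subst h0; exact sub_refl _ _
          · rw [sub_iff _ (by omega)]
            have := (par_isPar ω).lt u h0
            exact ih _ this (by omega) (mem_univ _)
      rw [h1, card_univ, Fintype.card_fin]
    omega
  · set G' := (graph ω).induce ({v}ᶜ : Set (Fin (n + 1))) with hG'
    set z : ({v}ᶜ : Set (Fin (n + 1))) := ⟨0, fun h => hv h.symm⟩ with hz
    have h1 : (G'.connectedComponentMk z).supp.ncard ≤ psi (graph ω) v :=
      le_ciSup (psi_bdd (graph ω) v) (G'.connectedComponentMk z)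
    have h2 : (univ.filter (fun u : Fin (n + 1) => ¬ Sub (par ω) v u)).card ≤
        (G'.connectedComponentMk z).supp.ncard := by
      rw [← Set.ncard_image_of_injective _ Subtype.val_injective, ← Set.ncard_coe_finset]
      apply Set.ncard_le_ncard _ (Set.toFinite _)
      intro u hu
      have hu' : ¬ Sub (par ω) v u := by simpa using hu
      obtain ⟨hm, hr⟩ := reach_zero ω hv u u.isLt hu'
      refine ⟨⟨u, hm⟩, ?_, rfl⟩
      rw [SimpleGraph.ConnectedComponent.mem_supp_iff]
      exact SimpleGraph.ConnectedComponent.sound hr.symm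
    have h3 := Finset.card_filter_add_card_filter_not (s := (univ : Finset (Fin (n + 1))))
      (fun u : Fin (n + 1) => Sub (par ω) v u)
    rw [card_univ, Fintype.card_fin, ← D_eq] at h3
    omega

lemma psi_le {n : ℕ} (ω : Tree n) (v : Fin (n + 1)) (h : 2 * D ω v ≤ n + 1) :
    psi (graph ω) v + D ω v ≤ n + 1 := by
  classical
  have h3 := Finset.card_filter_add_card_filter_not (s := (univ : Finset (Fin (n + 1))))
    (fun u : Fin (n + 1) => Sub (par ω) v u)
  rw [card_univ, Fintype.card_fin, ← D_eq] at h3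
  suffices hs : psi (graph ω) v ≤ (univ.filter (fun u : Fin (n + 1) => ¬ Sub (par ω) v u)).card by
    omega
  apply ciSup_le'
  intro C
  induction C using SimpleGraph.ConnectedComponent.ind with
  | h z =>
    rw [← Set.ncard_image_of_injective _ Subtype.val_injective]
    by_cases hz : Sub (par ω) v (z : Fin (n + 1))
    · refine le_trans ?_ (by omega : D ω v ≤ _)
      rw [D_eq, ← Set.ncard_coe_finset]
      apply Set.ncard_le_ncard _ (Set.toFinite _)
      rintro _ ⟨w, hw, rfl⟩
      rw [SimpleGraph.ConnectedComponent.mem_supp_iff] at hw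
      have hr := SimpleGraph.ConnectedComponent.exact hw
      simp only [coe_filter, mem_univ, true_and, Set.mem_setOf_eq]
      exact (reach_sub ω v hr).2 hz
    · rw [← Set.ncard_coe_finset]
      apply Set.ncard_le_ncard _ (Set.toFinite _)
      rintro _ ⟨w, hw, rfl⟩
      rw [SimpleGraph.ConnectedComponent.mem_supp_iff] at hw
      have hr := SimpleGraph.ConnectedComponent.exact hw
      simp only [coe_filter, mem_univ, true_and, Set.mem_setOf_eq]
      exact fun h => hz ((reach_sub ω v hr).1 h)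


lemma prob_le {n : ℕ} {E : Tree n → Equiv.Perm (Fin (n + 1)) → Prop} {E' : Tree n → Prop}
    (h : ∀ ω σ, E ω σ → E' ω) : prob n E ≤ Pr n E' := by
  classical
  have h1 : ((univ.filter (fun x : Tree n × Equiv.Perm (Fin (n + 1)) => E x.1 x.2)).card : ℝ) ≤
      ((univ.filter (fun ω : Tree n => E' ω)).card : ℝ) *
        Fintype.card (Equiv.Perm (Fin (n + 1))) := by
    rw [← Finset.card_univ (α := Equiv.Perm (Fin (n + 1)))]
    rw [← Nat.cast_mul, ← card_product]
    apply Nat.cast_le.2
    apply card_le_card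
    intro x hx
    simp only [mem_filter, mem_univ, true_and, mem_product, and_true] at hx ⊢
    exact h _ _ hx
  have h2 : Pr n E' = ((univ.filter (fun ω : Tree n => E' ω)).card : ℝ) / Fintype.card (Tree n) := by
    unfold Pr Ex ind
    rw [Finset.sum_boole]
  have h3 : (0:ℝ) < Fintype.card (Equiv.Perm (Fin (n + 1))) := by
    have : 0 < Fintype.card (Equiv.Perm (Fin (n + 1))) := Fintype.card_pos
    exact_mod_cast this
  have h4 := card_tree_pos n
  rw [h2]
  unfold prob
  rw [Fintype.card_prod, Nat.cast_mul, div_le_div_iff₀ (by positivity) h4]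
  nlinarith

lemma prob_nonneg {n : ℕ} (E : Tree n → Equiv.Perm (Fin (n + 1)) → Prop) : 0 ≤ prob n E := by
  unfold prob; positivity

lemma N_eq {n : ℕ} (ω : Tree n) {K : ℕ} (hK : K ≤ n + 1) (a : ℕ) :
    N ω K a = ((univ.filter (fun v : Fin (n + 1) => (v : ℕ) < K ∧ a < D ω v)).card : ℝ) := by
  have h0 : ∀ i, ind (a < D ω i) = if a < D ω i then 1 else 0 := by
    intro i
    by_cases h : a < D ω i
    · rw [ind_true h, if_pos h]
    · rw [ind_false h, if_neg h]
  unfold N
  simp_rw [h0]
  rw [Finset.sum_boole]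
  congr 1
  rw [← card_map Fin.valEmbedding]
  congr 1
  ext u
  simp only [mem_filter, mem_range, mem_map, mem_univ, true_and, Fin.valEmbedding_apply]
  constructor
  · rintro ⟨h1, h2⟩
    exact ⟨⟨u, by omega⟩, ⟨h1, h2⟩, rfl⟩
  · rintro ⟨w, h1, rfl⟩
    exact h1

/-- number of vertices with more than half of the vertices in their subtree -/
noncomputable def B {n : ℕ} (ω : Tree n) : ℝ := N ω (n + 1) ((n + 1) / 2)

lemma upper_incl {n K m a : ℕ} (hK : K ≤ n + 1) (ω : Tree n) (σ : Equiv.Perm (Fin (n + 1)))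
    (h : (m : ℝ) + B ω ≤ N ω (n + 1) a) :
    (((top m ω σ).filter (fun v : Fin (n + 1) => (v : ℕ) < K)).card : ℝ) ≤ N ω K a := by
  classical
  rw [N_eq ω hK]
  apply Nat.cast_le.2
  apply card_le_card
  intro v hv
  unfold top at hv
  simp only [mem_filter, mem_univ, true_and] at hv ⊢
  refine ⟨hv.2, ?_⟩
  by_contra hD
  rw [not_lt] at hD
  unfold B at h
  rw [N_eq ω le_rfl, N_eq ω le_rfl, ← Nat.cast_add, Nat.cast_le] at h
  have h1 : (univ.filter (fun u : Fin (n + 1) => (u : ℕ) < n + 1 ∧ a < D ω u)) ⊆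
      (univ.filter (fun u : Fin (n + 1) => (u : ℕ) < n + 1 ∧ (n + 1) / 2 < D ω u)) ∪
      (univ.filter (fun u => psi (graph ω) u < psi (graph ω) v ∨
        (psi (graph ω) u = psi (graph ω) v ∧ σ u < σ v))) := by
    intro u hu
    simp only [mem_filter, mem_univ, true_and, mem_union] at hu ⊢
    by_cases hh : (n + 1) / 2 < D ω u
    · left; exact ⟨u.isLt, hh⟩
    · right; left
      have e1 := psi_le ω u (by omega)
      have e2 := psi_ge ω v
      omega
  have h2 := (card_le_card h1).trans (card_union_le _ _)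
  have h3 := hv.1
  omega

lemma lower_incl {n K m a : ℕ} (hK : K ≤ n + 1) (ω : Tree n) (σ : Equiv.Perm (Fin (n + 1)))
    (h : N ω (n + 1) a ≤ m) :
    N ω K a ≤ (((top m ω σ).filter (fun v : Fin (n + 1) => (v : ℕ) < K)).card : ℝ) + B ω := by
  classical
  unfold B
  rw [N_eq ω hK, N_eq ω le_rfl]
  rw [N_eq ω le_rfl, Nat.cast_le] at h
  rw [← Nat.cast_add, Nat.cast_le]
  refine le_trans (card_le_card ?_) (card_union_le _ _)
  intro v hv
  simp only [mem_filter, mem_univ, true_and, mem_union] at hv ⊢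
  by_cases hh : (n + 1) / 2 < D ω v
  · right; exact ⟨v.isLt, hh⟩
  · left
    refine ⟨?_, hv.1⟩
    unfold top
    simp only [mem_filter, mem_univ, true_and]
    refine lt_of_lt_of_le (card_lt_card ?_) h
    rw [Finset.ssubset_iff_of_subset]
    · refine ⟨v, ?_, ?_⟩
      · simp only [mem_filter, mem_univ, true_and]
        exact ⟨v.isLt, hv.2⟩
      · simp
    · intro u hu
      simp only [mem_filter, mem_univ, true_and] at hu ⊢
      refine ⟨u.isLt, ?_⟩
      have e1 := psi_le ω v (by omega)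
      have e2 := psi_ge ω u
      have e3 : psi (graph ω) u ≤ psi (graph ω) v := by
        rcases hu with hu | hu
        · exact hu.le
        · exact hu.1.le
      have := hv.2
      omega

lemma Ex_N {n K a : ℕ} : Ex n (fun ω => N ω K a) = ∑ i ∈ range K, g n i a := by
  unfold N
  rw [Ex_sum]
  rfl

lemma N_nonneg {n : ℕ} (ω : Tree n) (K a : ℕ) : 0 ≤ N ω K a :=
  Finset.sum_nonneg (fun _ _ => ind_nonneg _)

lemma B_markov {n : ℕ} (hn : 1 ≤ n) {t : ℝ} (ht : 0 < t) :
    Pr n (fun ω => t ≤ B ω) ≤ 2 / t := by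
  unfold B
  refine (markov _ (fun ω => N_nonneg ω _ _) ht).trans ?_
  rw [Ex_N, sum_g (by omega)]
  apply div_le_div_of_nonneg_right _ ht.le
  rw [div_le_iff₀ (by positivity)]
  have : n + 1 ≤ 2 * ((n + 1) / 2 + 1) := by omega
  exact_mod_cast this


open Filter Topology

lemma H_diff {a m : ℕ} (ha : 1 ≤ a) (h : a ≤ m) : H m - H a ≤ Real.log ((m : ℝ) / a) := by
  have ha' : (0:ℝ) < a := by exact_mod_cast ha
  induction m, h using Nat.le_induction with
  | base => simp [div_self ha'.ne']
  | succ m hm ih =>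
    have hm' : (0:ℝ) < m := by exact_mod_cast (by omega : 0 < m)
    have h1 : Real.log (((m + 1 : ℕ) : ℝ) / a) = Real.log ((m:ℝ) / a) + Real.log ((m + 1) / m) := by
      rw [← Real.log_mul (by positivity) (by positivity)]
      congr 1
      push_cast
      field_simp
    have h2 : 1 / ((m:ℝ) + 1) ≤ Real.log ((m + 1) / m) := by
      have := Real.one_sub_inv_le_log_of_pos (x := ((m:ℝ) + 1) / m) (by positivity)
      refine le_trans (le_of_eq ?_) this
      field_simp
      ring
    rw [H_succ, h1]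
    linarith

/-- the threshold -/
noncomputable def thr (x : ℝ) (n : ℕ) : ℕ := ⌊x * n⌋₊

lemma thr_le {x : ℝ} (hx0 : 0 ≤ x) (hx1 : x ≤ 1) (n : ℕ) : thr x n ≤ n := by
  unfold thr
  apply Nat.floor_le_of_le
  have : (0:ℝ) ≤ n := by positivity
  nlinarith

lemma thr_tendsto {x : ℝ} (hx : 0 ≤ x) :
    Tendsto (fun n : ℕ => (thr x n : ℝ) / n) atTop (𝓝 x) :=
  (tendsto_nat_floor_mul_div_atTop hx).comp tendsto_natCast_atTop_atTop

lemma X_tendsto {x : ℝ} (hx : 0 < x) :
    Tendsto (fun n : ℕ => ((n : ℝ) + 1) / (thr x n + 1)) atTop (𝓝 (1 / x)) := by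
  have h1 : Tendsto (fun n : ℕ => (thr x n : ℝ) / n * ((n : ℝ) / (n + 1)) + 1 / ((n:ℝ) + 1)) atTop
      (𝓝 (x * 1 + 0)) :=
    ((thr_tendsto hx.le).mul (tendsto_natCast_div_add_atTop (1:ℝ))).add
      tendsto_one_div_add_atTop_nhds_zero_nat
  have h2 : Tendsto (fun n : ℕ => ((thr x n : ℝ) + 1) / ((n:ℝ) + 1)) atTop (𝓝 x) := by
    rw [mul_one, add_zero] at h1
    refine h1.congr' ?_
    filter_upwards [eventually_gt_atTop 0] with n hn
    have : (0:ℝ) < n := by exact_mod_cast hn
    field_simp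
  have h3 := h2.inv₀ hx.ne'
  rw [one_div]
  refine h3.congr ?_
  intro n
  rw [inv_div]

lemma all_vertices {κ η ε : ℝ} (hκ : 0 < κ) (hη : 0 < η) (hε : 0 < ε) :
    ∀ᶠ K : ℕ in atTop, ∀ᶠ n : ℕ in atTop,
      Pr n (fun ω => η * K ≤ |N ω (n + 1) (thr (κ / K) n) - K / κ|) ≤ ε := by
  have hlim : Tendsto (fun y : ℝ => (4 / (η ^ 2 * κ ^ 2)) * (1 / y + 2 * (Real.log y ^ 1 / (1 * y + 0))))
      atTop (𝓝 ((4 / (η ^ 2 * κ ^ 2)) * (0 + 2 * 0))) := by
    refine Tendsto.const_mul _ (Tendsto.add ?_ (Tendsto.const_mul _ ?_))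
    · exact (tendsto_inv_atTop_zero (𝕜 := ℝ)).congr (fun y => (one_div y).symm)
    · exact Real.tendsto_pow_log_div_mul_add_atTop 1 0 1 one_ne_zero
  have hKκ : Tendsto (fun K : ℕ => (K : ℝ) / κ) atTop atTop :=
    tendsto_natCast_atTop_atTop.atTop_div_const hκ
  have hlim2 := hlim.comp hKκ
  have h0 : (4 / (η ^ 2 * κ ^ 2)) * (0 + 2 * 0) = 0 := by ring
  rw [h0] at hlim2
  filter_upwards [hlim2.eventually (gt_mem_nhds hε), hKκ.eventually_gt_atTop 1,
    eventually_gt_atTop 0] with K hK1 hK2 hK3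
  have hK : (0:ℝ) < K := by exact_mod_cast hK3
  have hx : 0 < κ / K := by positivity
  have hx1 : κ / K < 1 := by
    rw [div_lt_one hK]
    rwa [lt_div_iff₀ hκ, one_mul] at hK2
  have hX := X_tendsto hx
  have hinv : 1 / (κ / K) = K / κ := by field_simp
  rw [hinv] at hX
  have hX1 : ∀ᶠ n : ℕ in atTop, |((n : ℝ) + 1) / (thr (κ / K) n + 1) - K / κ| < η * K / 2 := by
    have := hX.sub_const ((K:ℝ) / κ)
    rw [sub_self] at this
    have := this.abs
    rw [abs_zero] at this
    exact this.eventually (gt_mem_nhds (by positivity))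
  have hX2 : Tendsto (fun n : ℕ => (((n : ℝ) + 1) / (thr (κ / K) n + 1) *
      (1 + 2 * Real.log (((n : ℝ) + 1) / (thr (κ / K) n + 1)))) / (η * K / 2) ^ 2) atTop
      (𝓝 ((K / κ * (1 + 2 * Real.log (K / κ))) / (η * K / 2) ^ 2)) := by
    refine Tendsto.div_const (hX.mul (tendsto_const_nhds.add (Tendsto.const_mul _ ?_))) _
    exact hX.log (by positivity)
  have hlt : (K / κ * (1 + 2 * Real.log (K / κ))) / (η * K / 2) ^ 2 < ε := by
    refine lt_of_eq_of_lt ?_ hK1
    simp only [Function.comp]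
    rw [pow_one, one_mul, add_zero]
    field_simp
    ring
  filter_upwards [hX1, hX2.eventually (gt_mem_nhds hlt)] with n hn1 hn2
  have hthr : thr (κ / K) n ≤ n := thr_le hx.le hx1.le n
  have hsum : ∑ i ∈ range (n + 1), g n i (thr (κ / K) n) = ((n:ℝ) + 1) / (thr (κ / K) n + 1) :=
    sum_g hthr
  have h1 : Pr n (fun ω => η * K ≤ |N ω (n + 1) (thr (κ / K) n) - K / κ|) ≤
      Pr n (fun ω => η * K / 2 ≤ |N ω (n + 1) (thr (κ / K) n) -
        ∑ i ∈ range (n + 1), g n i (thr (κ / K) n)|) := by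
    apply Pr_mono
    intro ω hω
    rw [hsum]
    have h2 := abs_sub_le (N ω (n + 1) (thr (κ / K) n)) (((n : ℝ) + 1) / (thr (κ / K) n + 1)) (K / κ)
    linarith
  refine h1.trans ((chebyshev le_rfl (by positivity)).trans (le_trans ?_ hn2.le))
  apply div_le_div_of_nonneg_right _ (by positivity)
  rw [hsum, sum_gH hthr]
  have h3 := H_diff (a := thr (κ / K) n + 1) (m := n + 1) (by omega) (by omega)
  push_cast at h3
  have h4 : (0:ℝ) ≤ ((n:ℝ) + 1) / (thr (κ / K) n + 1) := by positivity
  nlinarith [mul_le_mul_of_nonneg_left h3 h4]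

lemma H_div_tendsto : Tendsto (fun K : ℕ => H K / K) atTop (𝓝 0) := by
  have h1 : Tendsto (fun n : ℕ => 1 / ((n : ℝ) + 1)) atTop (𝓝 0) :=
    tendsto_one_div_add_atTop_nhds_zero_nat
  have h2 := h1.cesaro
  refine h2.congr ?_
  intro n
  unfold H
  rw [div_eq_inv_mul]

lemma H_mono {i j : ℕ} (h : i ≤ j) : H i ≤ H j := by
  unfold H
  exact Finset.sum_le_sum_of_subset_of_nonneg (range_mono h) (fun _ _ _ => by positivity)

lemma first_vertices {κ η ε : ℝ} (hκ : 0 < κ) (hη : 0 < η) (hε : 0 < ε) :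
    ∀ᶠ K : ℕ in atTop, ∀ᶠ n : ℕ in atTop,
      Pr n (fun ω => η * K ≤ |N ω K (thr (κ / K) n) - K * ((1 - Real.exp (-κ)) / κ)|) ≤ ε := by
  have hlim : Tendsto (fun K : ℕ => (4 / η ^ 2) * (1 / (K:ℝ) + 2 * (H K / K))) atTop
      (𝓝 ((4 / η ^ 2) * (0 + 2 * 0))) := by
    refine Tendsto.const_mul _ (Tendsto.add ?_ (Tendsto.const_mul _ H_div_tendsto))
    exact tendsto_const_div_atTop_nhds_zero_nat 1
  have h0 : (4 / η ^ 2) * (0 + 2 * 0) = 0 := by ring
  rw [h0] at hlim
  have hexp : Tendsto (fun K : ℕ => (1 - (1 + (-κ) / K) ^ K) / κ) atTop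
      (𝓝 ((1 - Real.exp (-κ)) / κ)) :=
    ((tendsto_const_nhds (x := (1:ℝ))).sub (Real.tendsto_one_add_div_pow_exp (-κ))).div_const κ
  have hexp1 : ∀ᶠ K : ℕ in atTop,
      |(1 - (1 + (-κ) / K) ^ K) / κ - (1 - Real.exp (-κ)) / κ| < η / 4 := by
    have := hexp.sub_const ((1 - Real.exp (-κ)) / κ)
    rw [sub_self] at this
    have := this.abs
    rw [abs_zero] at this
    exact this.eventually (gt_mem_nhds (by positivity))
  have hKκ : Tendsto (fun K : ℕ => (K : ℝ) / κ) atTop atTop :=
    tendsto_natCast_atTop_atTop.atTop_div_const hκ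
  filter_upwards [hlim.eventually (gt_mem_nhds hε), hKκ.eventually_gt_atTop 1,
    eventually_gt_atTop 0, hexp1] with K hK1 hK2 hK3 hK4
  have hK : (0:ℝ) < K := by exact_mod_cast hK3
  have hx : 0 < κ / K := by positivity
  have hx1 : κ / K < 1 := by
    rw [div_lt_one hK]
    rwa [lt_div_iff₀ hκ, one_mul] at hK2
  have hμ : Tendsto (fun n : ℕ => ∑ i ∈ range K, g n i (thr (κ / K) n)) atTop
      (𝓝 (∑ i ∈ range K, (1 - κ / K) ^ i)) :=
    tendsto_finset_sum _ (fun i _ => g_tendsto i hx1 _ (thr_tendsto hx.le))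
  have hgeom : ∑ i ∈ range K, (1 - κ / K) ^ i = K * ((1 - (1 + (-κ) / K) ^ K) / κ) := by
    rw [geom_sum_eq (by linarith [hx] : (1 - κ / K) ≠ 1)]
    have : (1 + (-κ) / K) = 1 - κ / K := by ring
    rw [this]
    have h5 : 1 - κ / K - 1 = - (κ / K) := by ring
    rw [h5]
    field_simp
    ring
  rw [hgeom] at hμ
  have hμ1 : ∀ᶠ n : ℕ in atTop, |∑ i ∈ range K, g n i (thr (κ / K) n) -
      K * ((1 - (1 + (-κ) / K) ^ K) / κ)| < η * K / 4 := by
    have := hμ.sub_const (K * ((1 - (1 + (-κ) / K) ^ K) / κ))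
    rw [sub_self] at this
    have := this.abs
    rw [abs_zero] at this
    exact this.eventually (gt_mem_nhds (by positivity))
  filter_upwards [hμ1, eventually_ge_atTop K] with n hn1 hn2
  have h1 : Pr n (fun ω => η * K ≤ |N ω K (thr (κ / K) n) - K * ((1 - Real.exp (-κ)) / κ)|) ≤
      Pr n (fun ω => η * K / 2 ≤ |N ω K (thr (κ / K) n) -
        ∑ i ∈ range K, g n i (thr (κ / K) n)|) := by
    apply Pr_mono
    intro ω hω
    have h2 := abs_sub_le (N ω K (thr (κ / K) n)) (∑ i ∈ range K, g n i (thr (κ / K) n))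
      (K * ((1 - Real.exp (-κ)) / κ))
    have h3 := abs_sub_le (∑ i ∈ range K, g n i (thr (κ / K) n))
      (K * ((1 - (1 + (-κ) / K) ^ K) / κ)) (K * ((1 - Real.exp (-κ)) / κ))
    have h4 : |K * ((1 - (1 + (-κ) / K) ^ K) / κ) - K * ((1 - Real.exp (-κ)) / κ)| ≤ η * K / 4 := by
      rw [← mul_sub, abs_mul, abs_of_pos hK]
      nlinarith
    linarith
  refine h1.trans ((chebyshev (by omega) (by positivity)).trans (le_trans ?_ hK1.le))
  rw [div_le_iff₀ (by positivity)]
  have e1 : ∑ i ∈ range K, g n i (thr (κ / K) n) ≤ K := by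
    refine (Finset.sum_le_sum (fun i _ => g_le_one n i _)).trans ?_
    simp
  have e2 : ∑ j ∈ range K, g n j (thr (κ / K) n) * H j ≤ K * H K := by
    have : ∀ j ∈ range K, g n j (thr (κ / K) n) * H j ≤ H K := by
      intro j hj
      rw [mem_range] at hj
      have h6 := g_le_one n j (thr (κ / K) n)
      have h7 := g_nonneg n j (thr (κ / K) n)
      have h8 := H_mono hj.le
      have h9 := H_nonneg j
      nlinarith
    refine (Finset.sum_le_sum this).trans ?_
    simp
  have e3 : (4 / η ^ 2) * (1 / (K:ℝ) + 2 * (H K / K)) * (η * K / 2) ^ 2 = K + 2 * (K * H K) := by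
    field_simp
    ring
  rw [e3]
  linarith

lemma heavy_vertices {η ε : ℝ} (hη : 0 < η) (hε : 0 < ε) :
    ∀ᶠ K : ℕ in atTop, ∀ᶠ n : ℕ in atTop, Pr n (fun ω => η * K ≤ B ω) ≤ ε := by
  have hlim : Tendsto (fun K : ℕ => (2 / η) / (K : ℝ)) atTop (𝓝 0) :=
    tendsto_const_div_atTop_nhds_zero_nat _
  filter_upwards [hlim.eventually (gt_mem_nhds hε), eventually_gt_atTop 0] with K hK1 hK2
  have hK : (0:ℝ) < K := by exact_mod_cast hK2
  filter_upwards [eventually_ge_atTop 1] with n hn
  refine (B_markov hn (by positivity)).trans (le_trans (le_of_eq ?_) hK1.le)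
  field_simp


lemma h_cont {κ : ℝ} (hκ : 0 < κ) : ContinuousAt (fun t : ℝ => (1 - Real.exp (-t)) / t) κ := by
  apply ContinuousAt.div
  · fun_prop
  · fun_prop
  · exact hκ.ne'

lemma main_ev {c δ ε : ℝ} (hc : 1 < c) (hδ : 0 < δ) (hε : 0 < ε) :
    ∀ᶠ K : ℕ in atTop, ∀ᶠ n : ℕ in atTop,
      prob n (fun ω σ => δ < |R c K ω σ - c * (1 - Real.exp (-(1 / c)))|) ≤ ε := by
  have hc0 : 0 < c := by linarith
  set φ := c * (1 - Real.exp (-(1 / c))) with hφ
  have hφ2 : (1 - Real.exp (-(1 / c))) / (1 / c) = φ := by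
    rw [hφ]; field_simp
  have hcont := h_cont (κ := 1 / c) (by positivity)
  rw [Metric.continuousAt_iff] at hcont
  obtain ⟨r, hr, hrc⟩ := hcont (δ / 4) (by positivity)
  have hc1 : 0 < 1 / c := by positivity
  -- the lower parameter
  obtain ⟨κ₁, h1a, h1b, h1c⟩ : ∃ κ₁ : ℝ, 0 < κ₁ ∧ κ₁ < 1 / c ∧
      |(1 - Real.exp (-κ₁)) / κ₁ - φ| < δ / 4 := by
    refine ⟨1 / c - min (r / 2) (1 / c / 2), ?_, ?_, ?_⟩
    · have := min_le_right (r / 2) (1 / c / 2)
      linarith
    · have : 0 < min (r / 2) (1 / c / 2) := lt_min (by positivity) (by positivity)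
      linarith
    · have h0 : 0 < min (r / 2) (1 / c / 2) := lt_min (by positivity) (by positivity)
      have h1 := min_le_left (r / 2) (1 / c / 2)
      have := hrc (x := 1 / c - min (r / 2) (1 / c / 2)) (by
        rw [Real.dist_eq, sub_sub_cancel_left, abs_neg, abs_of_pos h0]
        linarith)
      rw [Real.dist_eq, hφ2] at this
      exact this
  obtain ⟨κ₂, h2b, h2c⟩ : ∃ κ₂ : ℝ, 1 / c < κ₂ ∧
      |(1 - Real.exp (-κ₂)) / κ₂ - φ| < δ / 4 := by
    refine ⟨1 / c + r / 2, by linarith, ?_⟩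
    have := hrc (x := 1 / c + r / 2) (by
      rw [Real.dist_eq, add_sub_cancel_left, abs_of_pos (by positivity)]
      linarith)
    rw [Real.dist_eq, hφ2] at this
    exact this
  have h2a : 0 < κ₂ := hc1.trans h2b
  have hk1 : c < 1 / κ₁ := by
    rw [lt_div_iff₀ h1a]
    rw [lt_div_iff₀ hc0] at h1b
    linarith
  have hk2 : 1 / κ₂ < c := by
    rw [div_lt_iff₀ h2a]
    rw [div_lt_iff₀ hc0] at h2b
    linarith
  obtain ⟨η, hη, hη1, hη2, hη3⟩ : ∃ η : ℝ, 0 < η ∧ η ≤ δ / 8 ∧ 4 * η ≤ 1 / κ₁ - c ∧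
      4 * η ≤ c - 1 / κ₂ := by
    refine ⟨min (δ / 8) (min ((1 / κ₁ - c) / 4) ((c - 1 / κ₂) / 4)), ?_, ?_, ?_, ?_⟩
    · refine lt_min (by positivity) (lt_min ?_ ?_) <;> linarith
    · exact min_le_left _ _
    · have := (min_le_right (δ / 8) (min ((1 / κ₁ - c) / 4) ((c - 1 / κ₂) / 4))).trans
        (min_le_left _ _)
      linarith
    · have := (min_le_right (δ / 8) (min ((1 / κ₁ - c) / 4) ((c - 1 / κ₂) / 4))).trans
        (min_le_right _ _)
      linarith
  have hε5 : 0 < ε / 5 := by positivity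
  have hKη : ∀ᶠ K : ℕ in atTop, 1 ≤ η * (K : ℝ) := by
    have : Tendsto (fun K : ℕ => η * (K : ℝ)) atTop atTop :=
      tendsto_natCast_atTop_atTop.const_mul_atTop hη
    exact this.eventually_ge_atTop 1
  filter_upwards [all_vertices h1a hη hε5, all_vertices h2a hη hε5, first_vertices h1a hη hε5,
    first_vertices h2a hη hε5, heavy_vertices hη hε5, hKη, eventually_gt_atTop 0]
    with K A1 A2 F1 F2 HV hK1 hK0
  have hK : (0:ℝ) < K := by exact_mod_cast hK0
  filter_upwards [A1, A2, F1, F2, HV, eventually_ge_atTop K] with n a1 a2 f1 f2 hv hn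
  have hbad : prob n (fun ω σ => δ < |R c K ω σ - φ|) ≤
      Pr n (fun ω => η * K ≤ |N ω (n + 1) (thr (κ₁ / K) n) - K / κ₁| ∨
        (η * K ≤ |N ω (n + 1) (thr (κ₂ / K) n) - K / κ₂| ∨
        (η * K ≤ |N ω K (thr (κ₁ / K) n) - K * ((1 - Real.exp (-κ₁)) / κ₁)| ∨
        (η * K ≤ |N ω K (thr (κ₂ / K) n) - K * ((1 - Real.exp (-κ₂)) / κ₂)| ∨
        η * K ≤ B ω)))) := by
    apply prob_le
    intro ω σ hE
    by_contra hcon
    simp only [not_or, not_le] at hcon
    obtain ⟨b1, b2, b3, b4, b5⟩ := hcon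
    rw [abs_lt] at b1 b2 b3 b4 h1c h2c
    have hm1 : c * K ≤ (⌈c * K⌉₊ : ℝ) := Nat.le_ceil _
    have hm2 : (⌈c * K⌉₊ : ℝ) < c * K + 1 := Nat.ceil_lt_add_one (by positivity)
    have e1 : (4 * η) * K ≤ (1 / κ₁ - c) * K := mul_le_mul_of_nonneg_right hη2 hK.le
    have e2 : (4 * η) * K ≤ (c - 1 / κ₂) * K := mul_le_mul_of_nonneg_right hη3 hK.le
    have e3 : (1 / κ₁ - c) * K = K / κ₁ - c * K := by ring
    have e4 : (c - 1 / κ₂) * K = c * K - K / κ₂ := by ring
    rw [e3] at e1
    rw [e4] at e2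
    have U := upper_incl (n := n) (K := K) (m := ⌈c * K⌉₊) (a := thr (κ₁ / K) n) (by omega) ω σ
      (by linarith)
    have L := lower_incl (n := n) (K := K) (m := ⌈c * K⌉₊) (a := thr (κ₂ / K) n) (by omega) ω σ
      (by linarith)
    have u1 : R c K ω σ ≤ φ + δ / 2 := by
      unfold R
      rw [div_le_iff₀ hK]
      have : K * ((1 - Real.exp (-κ₁)) / κ₁) ≤ K * (φ + δ / 4) :=
        mul_le_mul_of_nonneg_left (by linarith) hK.le
      have h8 : η * K ≤ δ / 8 * K := mul_le_mul_of_nonneg_right hη1 hK.le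
      nlinarith
    have l1 : φ - δ / 2 ≤ R c K ω σ := by
      unfold R
      rw [le_div_iff₀ hK]
      have : K * (φ - δ / 4) ≤ K * ((1 - Real.exp (-κ₂)) / κ₂) :=
        mul_le_mul_of_nonneg_left (by linarith) hK.le
      have h8 : η * K ≤ δ / 8 * K := mul_le_mul_of_nonneg_right hη1 hK.le
      nlinarith
    have : |R c K ω σ - φ| ≤ δ / 2 := by
      rw [abs_le]; constructor <;> linarith
    linarith
  refine hbad.trans ?_
  have o1 := Pr_or (n := n) (fun ω => η * K ≤ |N ω (n + 1) (thr (κ₁ / K) n) - K / κ₁|)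
    (fun ω => (η * K ≤ |N ω (n + 1) (thr (κ₂ / K) n) - K / κ₂| ∨
        (η * K ≤ |N ω K (thr (κ₁ / K) n) - K * ((1 - Real.exp (-κ₁)) / κ₁)| ∨
        (η * K ≤ |N ω K (thr (κ₂ / K) n) - K * ((1 - Real.exp (-κ₂)) / κ₂)| ∨
        η * K ≤ B ω))))
  have o2 := Pr_or (n := n) (fun ω => η * K ≤ |N ω (n + 1) (thr (κ₂ / K) n) - K / κ₂|)
    (fun ω => (η * K ≤ |N ω K (thr (κ₁ / K) n) - K * ((1 - Real.exp (-κ₁)) / κ₁)| ∨
        (η * K ≤ |N ω K (thr (κ₂ / K) n) - K * ((1 - Real.exp (-κ₂)) / κ₂)| ∨
        η * K ≤ B ω)))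
  have o3 := Pr_or (n := n)
    (fun ω => η * K ≤ |N ω K (thr (κ₁ / K) n) - K * ((1 - Real.exp (-κ₁)) / κ₁)|)
    (fun ω => (η * K ≤ |N ω K (thr (κ₂ / K) n) - K * ((1 - Real.exp (-κ₂)) / κ₂)| ∨
        η * K ≤ B ω))
  have o4 := Pr_or (n := n)
    (fun ω => η * K ≤ |N ω K (thr (κ₂ / K) n) - K * ((1 - Real.exp (-κ₂)) / κ₂)|)
    (fun ω => η * K ≤ B ω)
  linarith

/-- Sanity check (not needed for the main theorem): `top m ω σ` really consists of `m` vertices
(of all `n + 1` vertices, if `m > n + 1`). -/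
lemma card_top {n : ℕ} (m : ℕ) (ω : Tree n) (σ : Equiv.Perm (Fin (n + 1))) :
    (top m ω σ).card = min m (n + 1) := by
  classical
  set bef : Fin (n + 1) → Fin (n + 1) → Prop := fun u v => psi (graph ω) u < psi (graph ω) v ∨
    (psi (graph ω) u = psi (graph ω) v ∧ σ u < σ v) with hbef
  set f : Fin (n + 1) → ℕ := fun v => (univ.filter (fun u => bef u v)).card with hf
  have hirr : ∀ v, ¬ bef v v := by
    intro v h
    rcases h with h | h
    · exact lt_irrefl _ h
    · exact lt_irrefl _ h.2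
  have htr : ∀ u v w, bef u v → bef v w → bef u w := by
    intro u v w h1 h2
    rcases h1 with h1 | ⟨h1, h1'⟩ <;> rcases h2 with h2 | ⟨h2, h2'⟩
    · left; omega
    · left; omega
    · left; omega
    · right; exact ⟨by omega, h1'.trans h2'⟩
  have hlt : ∀ u v, bef u v → f u < f v := by
    intro u v huv
    apply card_lt_card
    rw [Finset.ssubset_iff_of_subset]
    · exact ⟨u, by simpa using huv, by simpa using hirr u⟩
    · intro w hw
      simp only [mem_filter, mem_univ, true_and] at hw ⊢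
      exact htr _ _ _ hw huv
  have hinj : Function.Injective f := by
    intro u v huv
    by_contra hne
    have : bef u v ∨ bef v u := by
      rcases Nat.lt_trichotomy (psi (graph ω) u) (psi (graph ω) v) with h | h | h
      · exact Or.inl (Or.inl h)
      · rcases lt_trichotomy (σ u) (σ v) with h' | h' | h'
        · exact Or.inl (Or.inr ⟨h, h'⟩)
        · exact absurd (σ.injective h') hne
        · exact Or.inr (Or.inr ⟨h.symm, h'⟩)
      · exact Or.inr (Or.inl h)
    rcases this with h | h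
    · exact absurd huv (hlt _ _ h).ne
    · exact absurd huv (hlt _ _ h).ne'
  have hbd : ∀ v, f v < n + 1 := by
    intro v
    calc f v < (univ : Finset (Fin (n + 1))).card := by
          apply card_lt_card
          rw [Finset.ssubset_iff_of_subset (subset_univ _)]
          exact ⟨v, mem_univ _, by simpa using hirr v⟩
      _ = n + 1 := by simp
  have himg : univ.image f = range (n + 1) := by
    apply Finset.eq_of_subset_of_card_le
    · intro x hx
      simp only [mem_image, mem_univ, true_and] at hx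
      obtain ⟨v, rfl⟩ := hx
      exact mem_range.2 (hbd v)
    · rw [card_image_of_injective _ hinj, card_range, card_univ, Fintype.card_fin]
  have h1 : (top m ω σ).image f = range (min m (n + 1)) := by
    ext x
    simp only [mem_image, mem_range]
    constructor
    · rintro ⟨v, hv, rfl⟩
      unfold top at hv
      simp only [mem_filter, mem_univ, true_and] at hv
      exact lt_min hv (hbd v)
    · intro hx
      have hx1 : x ∈ univ.image f := by
        rw [himg]; exact mem_range.2 (hx.trans_le (min_le_right _ _))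
      simp only [mem_image, mem_univ, true_and] at hx1
      obtain ⟨v, rfl⟩ := hx1
      refine ⟨v, ?_, rfl⟩
      unfold top
      simp only [mem_filter, mem_univ, true_and]
      exact hx.trans_le (min_le_left _ _)
  rw [← card_image_of_injective _ hinj, h1, card_range]

/-- **Main theorem.** For every `c > 1` and `δ > 0`,
`lim_{K → ∞} limsup_{n → ∞} P(|R_{K,n}(c) - φ(c)| > δ) = 0`, with `φ(c) = c (1 - exp (-1/c))`. -/
theorem result : ∀ c : ℝ, 1 < c → ∀ δ : ℝ, 0 < δ →
    Tendsto (fun K : ℕ => limsup (fun n : ℕ => prob n (fun ω σ =>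
      δ < |R c K ω σ - c * (1 - Real.exp (-(1 / c)))|)) atTop) atTop (𝓝 0) := by
  intro c hc δ hδ
  have hbdd : ∀ K : ℕ, IsBoundedUnder (· ≥ ·) atTop (fun n : ℕ => prob n (fun ω σ =>
      δ < |R c K ω σ - c * (1 - Real.exp (-(1 / c)))|)) := fun K =>
    isBoundedUnder_of ⟨0, fun n => prob_nonneg _⟩
  rw [Metric.tendsto_atTop]
  intro ε hε
  have := main_ev hc hδ (half_pos hε)
  rw [eventually_atTop] at this
  obtain ⟨K0, hK0⟩ := this
  refine ⟨K0, fun K hK => ?_⟩
  have h1 := hK0 K hK
  have h2 : limsup (fun n : ℕ => prob n (fun ω σ =>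
      δ < |R c K ω σ - c * (1 - Real.exp (-(1 / c)))|)) atTop ≤ ε / 2 :=
    limsup_le_of_le ((hbdd K).isCoboundedUnder_le) h1
  have h3 : 0 ≤ limsup (fun n : ℕ => prob n (fun ω σ =>
      δ < |R c K ω σ - c * (1 - Real.exp (-(1 / c)))|)) atTop := by
    apply le_limsup_of_le (isBoundedUnder_of_eventually_le h1)
    intro b hb
    obtain ⟨n, hn⟩ := hb.exists
    exact (prob_nonneg _).trans hn
  rw [Real.dist_eq, sub_zero, abs_of_nonneg h3]
  linarith

end Pool.Agent.Results.MP_6a6beb_pr.EarlyCentral
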